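import Mathlib

set_option autoImplicit false
set_option linter.unusedSectionVars false

/-!
Hermitian geometry over a finite field with an involutive ring endomorphism `σ`.
Unitary matrices, averaging over the unitary group and orthonormal pairs.
-/

namespace Pool.Agent.H77R3.UP

open Matrix Finset

variable {F : Type} [Field F] [Fintype F]

/-- The Hermitian form `∑ x_i σ(y_i)` on `F³`. -/
def herm (σ : F →+* F) (x y : Fin 3 → F) : F := ∑ i, x i * σ (y i)

variable (σ : F →+* F)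

lemma herm_smul_left (a : F) (x y : Fin 3 → F) : herm σ (a • x) y = a * herm σ x y := by
  simp only [herm, Finset.mul_sum, Pi.smul_apply, smul_eq_mul]
  exact Finset.sum_congr rfl (fun i _ => by ring)

lemma herm_smul_right (a : F) (x y : Fin 3 → F) : herm σ x (a • y) = σ a * herm σ x y := by
  simp only [herm, Finset.mul_sum, Pi.smul_apply, smul_eq_mul, map_mul]
  exact Finset.sum_congr rfl (fun i _ => by ring)

lemma herm_symm (hσσ : ∀ x, σ (σ x) = x) (x y : Fin 3 → F) : σ (herm σ x y) = herm σ y x := by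
  simp only [herm, map_sum, map_mul, hσσ]
  exact Finset.sum_congr rfl (fun i _ => by ring)

lemma herm_eq_dot (x y : Fin 3 → F) : herm σ x y = x ⬝ᵥ (fun i => σ (y i)) := rfl

/-- Unitary matrices: rows are orthonormal. -/
def IsU (M : Matrix (Fin 3) (Fin 3) F) : Prop := M * (M.map σ)ᵀ = 1

/-- conjugate transpose -/
def st (M : Matrix (Fin 3) (Fin 3) F) : Matrix (Fin 3) (Fin 3) F := (M.map σ)ᵀ

lemma isU_iff (M : Matrix (Fin 3) (Fin 3) F) :
    IsU σ M ↔ ∀ i j, herm σ (M i) (M j) = if i = j then 1 else 0 := by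
  unfold IsU
  constructor
  · intro h i j
    have := congrFun (congrFun h i) j
    rw [Matrix.mul_apply, Matrix.one_apply] at this
    simpa [herm] using this
  · intro h
    ext i j
    rw [Matrix.mul_apply, Matrix.one_apply, ← h i j]
    simp [herm]

lemma st_mul (A B : Matrix (Fin 3) (Fin 3) F) : st σ (A * B) = st σ B * st σ A := by
  unfold st
  rw [Matrix.map_mul, Matrix.transpose_mul]

lemma st_st (hσσ : ∀ x, σ (σ x) = x) (A : Matrix (Fin 3) (Fin 3) F) : st σ (st σ A) = A := by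
  ext i j
  simp [st, hσσ]

lemma IsU.mul {A B : Matrix (Fin 3) (Fin 3) F} (hA : IsU σ A) (hB : IsU σ B) :
    IsU σ (A * B) := by
  have h1 : A * st σ A = 1 := hA
  have h2 : B * st σ B = 1 := hB
  show A * B * st σ (A * B) = 1
  rw [st_mul, Matrix.mul_assoc, ← Matrix.mul_assoc B, h2, Matrix.one_mul, h1]

lemma IsU.st_mul_self {A : Matrix (Fin 3) (Fin 3) F} (hA : IsU σ A) : st σ A * A = 1 := by
  have h1 : A * st σ A = 1 := hA
  exact mul_eq_one_comm.mp h1

lemma IsU.star (hσσ : ∀ x, σ (σ x) = x) {A : Matrix (Fin 3) (Fin 3) F} (hA : IsU σ A) :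
    IsU σ (st σ A) := by
  show st σ A * st σ (st σ A) = 1
  rw [st_st σ hσσ]
  exact hA.st_mul_self σ

lemma isU_one : IsU σ (1 : Matrix (Fin 3) (Fin 3) F) := by
  unfold IsU
  simp

open Classical in
/-- The finite set of unitary matrices. -/
noncomputable def UU : Finset (Matrix (Fin 3) (Fin 3) F) := Finset.univ.filter (IsU σ)

lemma mem_UU (M : Matrix (Fin 3) (Fin 3) F) : M ∈ UU σ ↔ IsU σ M := by
  classical
  simp [UU]

lemma card_UU_pos : 0 < (UU σ).card :=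
  Finset.card_pos.mpr ⟨1, (mem_UU σ 1).mpr (isU_one σ)⟩

lemma sum_left (hσσ : ∀ x, σ (σ x) = x) (f : Matrix (Fin 3) (Fin 3) F → ℝ)
    {C : Matrix (Fin 3) (Fin 3) F} (hC : IsU σ C) :
    ∑ M ∈ UU σ, f (C * M) = ∑ M ∈ UU σ, f M := by
  refine Finset.sum_nbij' (fun M => C * M) (fun M => st σ C * M) ?_ ?_ ?_ ?_ ?_
  · intro M hM
    exact (mem_UU σ _).mpr (hC.mul σ ((mem_UU σ _).mp hM))
  · intro M hM
    exact (mem_UU σ _).mpr ((hC.star σ hσσ).mul σ ((mem_UU σ _).mp hM))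
  · intro M _
    rw [← Matrix.mul_assoc, hC.st_mul_self σ, Matrix.one_mul]
  · intro M _
    have h1 : C * st σ C = 1 := hC
    rw [← Matrix.mul_assoc, h1, Matrix.one_mul]
  · intro M _
    rfl

lemma herm_vecMul {g : Matrix (Fin 3) (Fin 3) F} (hg : IsU σ g) (x y : Fin 3 → F) :
    herm σ (x ᵥ* g) (y ᵥ* g) = herm σ x y := by
  have h1 : g * st σ g = 1 := hg
  have h2 : (fun i => σ ((y ᵥ* g) i)) = (fun i => σ (y i)) ᵥ* (g.map σ) := by
    ext i
    simp [Matrix.vecMul, dotProduct, map_sum, map_mul]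
  rw [herm_eq_dot, herm_eq_dot, h2]
  rw [← Matrix.mulVec_transpose (g.map σ)]
  rw [← Matrix.dotProduct_mulVec, Matrix.mulVec_mulVec]
  show x ⬝ᵥ (g * st σ g) *ᵥ _ = _
  rw [h1, Matrix.one_mulVec]

open Classical in
/-- Orthonormal pairs. -/
noncomputable def OO : Finset ((Fin 3 → F) × (Fin 3 → F)) :=
  Finset.univ.filter (fun p => herm σ p.1 p.1 = 1 ∧ herm σ p.2 p.2 = 1 ∧ herm σ p.1 p.2 = 0)

lemma mem_OO (p : (Fin 3 → F) × (Fin 3 → F)) :
    p ∈ OO σ ↔ herm σ p.1 p.1 = 1 ∧ herm σ p.2 p.2 = 1 ∧ herm σ p.1 p.2 = 0 := by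
  classical
  simp [OO]

/-- An orthonormal pair extends to a unitary matrix. -/
lemma exists_U (hσσ : ∀ x, σ (σ x) = x) {v w : Fin 3 → F} (hv : herm σ v v = 1)
    (hw : herm σ w w = 1) (hvw : herm σ v w = 0) :
    ∃ h : Matrix (Fin 3) (Fin 3) F, IsU σ h ∧ h 0 = v ∧ h 1 = w := by
  have hwv : herm σ w v = 0 := by
    rw [← herm_symm σ hσσ, hvw, map_zero]
  let u : Fin 3 → F := ![σ (v 1 * w 2 - v 2 * w 1), σ (v 2 * w 0 - v 0 * w 2),
    σ (v 0 * w 1 - v 1 * w 0)]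
  have hvu : herm σ v u = 0 := by
    simp only [herm, Fin.sum_univ_three, u]
    simp [hσσ]
    ring
  have hwu : herm σ w u = 0 := by
    simp only [herm, Fin.sum_univ_three, u]
    simp [hσσ]
    ring
  have huv : herm σ u v = 0 := by rw [← herm_symm σ hσσ, hvu, map_zero]
  have huw : herm σ u w = 0 := by rw [← herm_symm σ hσσ, hwu, map_zero]
  have huu : herm σ u u = 1 := by
    simp only [herm, Fin.sum_univ_three] at hv hw hvw hwv
    simp only [herm, Fin.sum_univ_three, u]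
    simp [hσσ]
    linear_combination (w 0 * σ (w 0) + w 1 * σ (w 1) + w 2 * σ (w 2)) * hv + hw
      - (w 0 * σ (v 0) + w 1 * σ (v 1) + w 2 * σ (v 2)) * hvw
  refine ⟨Matrix.of ![v, w, u], ?_, rfl, rfl⟩
  rw [isU_iff]
  intro i j
  have e0 : (Matrix.of ![v, w, u]) 0 = v := rfl
  have e1 : (Matrix.of ![v, w, u]) 1 = w := rfl
  have e2 : (Matrix.of ![v, w, u]) 2 = u := rfl
  fin_cases i <;> fin_cases j <;>
    simp only [Fin.zero_eta, Fin.mk_one, Fin.reduceFinMk, e0, e1, e2, hv, hw, hvw, hwv, hvu, hwu,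
      huv, huw, huu] <;> simp

lemma double_count (hσσ : ∀ x, σ (σ x) = x) (f : (Fin 3 → F) → (Fin 3 → F) → ℝ) :
    ((OO σ).card : ℝ) * ∑ g ∈ UU σ, f (g 0) (g 1)
      = ((UU σ).card : ℝ) * ∑ p ∈ OO σ, f p.1 p.2 := by
  have h1 : ∑ p ∈ OO σ, ∑ g ∈ UU σ, f (p.1 ᵥ* g) (p.2 ᵥ* g)
      = ((OO σ).card : ℝ) * ∑ g ∈ UU σ, f (g 0) (g 1) := by
    rw [← nsmul_eq_mul]
    rw [← Finset.sum_const]
    refine Finset.sum_congr rfl ?_
    intro p hp
    rw [mem_OO] at hp
    obtain ⟨h, hU, h0, h1⟩ := exists_U σ hσσ hp.1 hp.2.1 hp.2.2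
    rw [← sum_left σ hσσ (fun g => f (g 0) (g 1)) hU]
    refine Finset.sum_congr rfl ?_
    intro g _
    have e0 : (h * g) 0 = p.1 ᵥ* g := by
      rw [← h0]; rfl
    have e1 : (h * g) 1 = p.2 ᵥ* g := by
      rw [← h1]; rfl
    rw [e0, e1]
  have h2 : ∑ g ∈ UU σ, ∑ p ∈ OO σ, f (p.1 ᵥ* g) (p.2 ᵥ* g)
      = ((UU σ).card : ℝ) * ∑ p ∈ OO σ, f p.1 p.2 := by
    rw [← nsmul_eq_mul]
    rw [← Finset.sum_const]
    refine Finset.sum_congr rfl ?_
    intro g hg
    rw [mem_UU] at hg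
    have hgs := hg.star σ hσσ
    have e1 : g * st σ g = 1 := hg
    have e2 : st σ g * g = 1 := hg.st_mul_self σ
    refine Finset.sum_nbij' (fun p => (p.1 ᵥ* g, p.2 ᵥ* g))
      (fun p => (p.1 ᵥ* st σ g, p.2 ᵥ* st σ g)) ?_ ?_ ?_ ?_ ?_
    · intro p hp
      rw [mem_OO] at hp ⊢
      simp only [herm_vecMul σ hg]
      exact hp
    · intro p hp
      rw [mem_OO] at hp ⊢
      simp only [herm_vecMul σ hgs]
      exact hp
    · intro p _
      simp [Matrix.vecMul_vecMul, e1]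
    · intro p _
      simp [Matrix.vecMul_vecMul, e2]
    · intro p _
      rfl
  rw [← h1, ← h2, Finset.sum_comm]

end Pool.Agent.H77R3.UP
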