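import Pool.Agent.H77R3.UP1

set_option autoImplicit false
set_option linter.unusedSectionVars false

/-!
The combinatorial core: a family of unitary frames in which every point but one is used an
even number of times forces a gap.
-/

namespace Pool.Agent.H77R3.UP

open Matrix Finset

variable {F : Type} [Field F] [Fintype F] (σ : F →+* F)

lemma sum_perm (f : Matrix (Fin 3) (Fin 3) F → ℝ) (π : Equiv.Perm (Fin 3)) :
    ∑ M ∈ UU σ, f (M.submatrix π id) = ∑ M ∈ UU σ, f M := by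
  have key : ∀ (π : Equiv.Perm (Fin 3)) (M : Matrix (Fin 3) (Fin 3) F), M ∈ UU σ →
      M.submatrix π id ∈ UU σ := by
    intro π M hM
    rw [mem_UU, isU_iff] at hM ⊢
    intro i j
    have := hM (π i) (π j)
    have e : ∀ i, (M.submatrix π id) i = M (π i) := fun i => rfl
    rw [e, e, this]
    simp
  refine Finset.sum_nbij' (fun M => M.submatrix π id) (fun M => M.submatrix π.symm id)
    (fun M hM => key π M hM) (fun M hM => key π.symm M hM) ?_ ?_ ?_
  · intro M _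
    ext i j
    simp
  · intro M _
    ext i j
    simp
  · intro M _
    rfl

variable (χ : (Fin 3 → F) → ℝ)

/-- parity indicator of a frame -/
def zz (M : Matrix (Fin 3) (Fin 3) F) : ℝ :=
  χ (M 0) + χ (M 1) + χ (M 2) - 2 * (χ (M 0) * χ (M 1) + χ (M 0) * χ (M 2) + χ (M 1) * χ (M 2))

lemma sum_zz : ∑ M ∈ UU σ, zz χ M
    = 3 * ∑ M ∈ UU σ, χ (M 0) - 6 * ∑ M ∈ UU σ, χ (M 0) * χ (M 1) := by
  have e1 : ∑ M ∈ UU σ, χ (M 1) = ∑ M ∈ UU σ, χ (M 0) := by
    rw [← sum_perm σ (fun M => χ (M 0)) (Equiv.swap 0 1)]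
    rfl
  have e2 : ∑ M ∈ UU σ, χ (M 2) = ∑ M ∈ UU σ, χ (M 0) := by
    rw [← sum_perm σ (fun M => χ (M 0)) (Equiv.swap 0 2)]
    rfl
  have e3 : ∑ M ∈ UU σ, χ (M 0) * χ (M 2) = ∑ M ∈ UU σ, χ (M 0) * χ (M 1) := by
    rw [← sum_perm σ (fun M => χ (M 0) * χ (M 1)) (Equiv.swap 1 2)]
    rfl
  have e4 : ∑ M ∈ UU σ, χ (M 1) * χ (M 2) = ∑ M ∈ UU σ, χ (M 0) * χ (M 1) := by
    rw [← sum_perm σ (fun M => χ (M 0) * χ (M 1)) (Equiv.swap 0 2)]
    refine Finset.sum_congr rfl ?_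
    intro M _
    show χ (M 1) * χ (M 2) = χ (M (Equiv.swap 0 2 0)) * χ (M (Equiv.swap 0 2 1))
    have a1 : (Equiv.swap (0 : Fin 3) 2) 0 = 2 := by decide
    have a2 : (Equiv.swap (0 : Fin 3) 2) 1 = 1 := by decide
    rw [a1, a2, mul_comm]
  unfold zz
  rw [Finset.sum_sub_distrib, Finset.sum_add_distrib, Finset.sum_add_distrib, ← Finset.mul_sum,
    Finset.sum_add_distrib, Finset.sum_add_distrib, e1, e2, e3, e4]
  ring

/-- The core inequality. -/
theorem core (hσσ : ∀ x, σ (σ x) = x) (hχ : ∀ v, χ v = 0 ∨ χ v = 1)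
    (htri : ∀ M, IsU σ M → ¬ (χ (M 0) = 1 ∧ χ (M 1) = 1 ∧ χ (M 2) = 1))
    {r m : ℕ} (pt : Fin r → Fin 3 → F) (fr : Fin m → Fin 3 → Fin r) (p0 : Fin r)
    (hU : ∀ j, IsU σ (Matrix.of (fun i => pt (fr j i))))
    (j0 : Fin m) (i0 : Fin 3) (hj0 : fr j0 i0 = p0)
    (hpar : ∀ c : Fin r → ℕ, (∀ j, (c (fr j 0) + c (fr j 1) + c (fr j 2)) % 2 = 0) →
      c p0 % 2 = 0) :
    6 * (m : ℝ) * ∑ p ∈ OO σ, χ p.1 * χ p.2 ≤ (3 * (m : ℝ) - 1) * ∑ p ∈ OO σ, χ p.1 := by
  classical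
  have hz0 : ∀ M, IsU σ M → 0 ≤ zz χ M := by
    intro M hM
    have ht := htri M hM
    unfold zz
    rcases hχ (M 0) with h0 | h0 <;> rcases hχ (M 1) with h1 | h1 <;>
      rcases hχ (M 2) with h2 | h2 <;>
      first
      | (rw [h0, h1, h2]; norm_num; done)
      | exact absurd ⟨h0, h1, h2⟩ ht
  have hz1 : ∀ M, IsU σ M → (∃ n : ℕ, n % 2 = 1 ∧ χ (M 0) + χ (M 1) + χ (M 2) = n) →
      1 ≤ zz χ M := by
    rintro M hM ⟨n, hn, hs⟩
    have ht := htri M hM
    unfold zz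
    rcases hχ (M 0) with h0 | h0 <;> rcases hχ (M 1) with h1 | h1 <;>
      rcases hχ (M 2) with h2 | h2 <;>
      first
      | (rw [h0, h1, h2]; norm_num; done)
      | (exfalso
         rw [h0, h1, h2] at hs
         have h3 : (n : ℝ) = 0 := by linarith
         have h4 : n = 0 := by exact_mod_cast h3
         omega)
      | (exfalso
         rw [h0, h1, h2] at hs
         have h3 : (n : ℝ) = 2 := by linarith
         have h4 : n = 2 := by exact_mod_cast h3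
         omega)
      | exact absurd ⟨h0, h1, h2⟩ ht
  -- pointwise
  have hpt : ∀ M ∈ UU σ, χ (pt p0 ᵥ* M)
      ≤ ∑ j, zz χ (Matrix.of (fun i => pt (fr j i)) * M) := by
    intro M hM
    rw [mem_UU] at hM
    have hUj : ∀ j, IsU σ (Matrix.of (fun i => pt (fr j i)) * M) := fun j => (hU j).mul σ hM
    have hnn : 0 ≤ ∑ j, zz χ (Matrix.of (fun i => pt (fr j i)) * M) :=
      Finset.sum_nonneg (fun j _ => hz0 _ (hUj j))
    rcases hχ (pt p0 ᵥ* M) with h | h
    · rw [h]; exact hnn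
    · rw [h]
      -- the natural number valued indicator
      let c : Fin r → ℕ := fun a => if χ (pt a ᵥ* M) = 1 then 1 else 0
      have hc : ∀ a, ((c a : ℕ) : ℝ) = χ (pt a ᵥ* M) := by
        intro a
        simp only [c]
        rcases hχ (pt a ᵥ* M) with h' | h' <;> simp [h']
      have hc0 : c p0 = 1 := by simp [c, h]
      by_contra hlt
      push Not at hlt
      have hall : ∀ j, (c (fr j 0) + c (fr j 1) + c (fr j 2)) % 2 = 0 := by
        intro j
        by_contra hodd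
        have hodd' : (c (fr j 0) + c (fr j 1) + c (fr j 2)) % 2 = 1 := by omega
        have h1 : 1 ≤ zz χ (Matrix.of (fun i => pt (fr j i)) * M) := by
          refine hz1 _ (hUj j) ⟨_, hodd', ?_⟩
          have e : ∀ i, (Matrix.of (fun i => pt (fr j i)) * M) i = pt (fr j i) ᵥ* M :=
            fun i => rfl
          rw [e, e, e]
          push_cast
          rw [hc, hc, hc]
        have h2 : zz χ (Matrix.of (fun i => pt (fr j i)) * M)
            ≤ ∑ j, zz χ (Matrix.of (fun i => pt (fr j i)) * M) :=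
          Finset.single_le_sum (f := fun j => zz χ (Matrix.of (fun i => pt (fr j i)) * M))
            (fun j _ => hz0 _ (hUj j)) (Finset.mem_univ j)
        linarith
      have := hpar c hall
      omega
  -- sum over the unitary group
  have hsum : ∑ M ∈ UU σ, χ (pt p0 ᵥ* M)
      ≤ ∑ M ∈ UU σ, ∑ j, zz χ (Matrix.of (fun i => pt (fr j i)) * M) :=
    Finset.sum_le_sum hpt
  have hl : ∑ M ∈ UU σ, χ (pt p0 ᵥ* M) = ∑ M ∈ UU σ, χ (M 0) := by
    have e1 : ∑ M ∈ UU σ, χ (M 0) = ∑ M ∈ UU σ, χ (M i0) := by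
      rw [← sum_perm σ (fun M => χ (M i0)) (Equiv.swap 0 i0)]
      refine Finset.sum_congr rfl ?_
      intro M _
      show χ (M 0) = χ (M (Equiv.swap 0 i0 i0))
      rw [Equiv.swap_apply_right]
    rw [e1, ← sum_left σ hσσ (fun M => χ (M i0)) (hU j0)]
    refine Finset.sum_congr rfl ?_
    intro M _
    have e : (Matrix.of (fun i => pt (fr j0 i)) * M) i0 = pt (fr j0 i0) ᵥ* M := rfl
    rw [e, hj0]
  have hr : ∑ M ∈ UU σ, ∑ j, zz χ (Matrix.of (fun i => pt (fr j i)) * M)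
      = (m : ℝ) * (3 * ∑ M ∈ UU σ, χ (M 0) - 6 * ∑ M ∈ UU σ, χ (M 0) * χ (M 1)) := by
    rw [Finset.sum_comm]
    have : ∀ j ∈ (Finset.univ : Finset (Fin m)),
        ∑ M ∈ UU σ, zz χ (Matrix.of (fun i => pt (fr j i)) * M)
        = 3 * ∑ M ∈ UU σ, χ (M 0) - 6 * ∑ M ∈ UU σ, χ (M 0) * χ (M 1) := by
      intro j _
      rw [sum_left σ hσσ (fun M => zz χ M) (hU j), sum_zz]
    rw [Finset.sum_congr rfl this, Finset.sum_const, Finset.card_univ, Fintype.card_fin,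
      nsmul_eq_mul]
  rw [hl, hr] at hsum
  have d1 := double_count σ hσσ (fun v _ => χ v)
  have d2 := double_count σ hσσ (fun v w => χ v * χ w)
  have hO : (0 : ℝ) ≤ ((OO σ).card : ℝ) := Nat.cast_nonneg _
  have hn : (0 : ℝ) < ((UU σ).card : ℝ) := by exact_mod_cast card_UU_pos σ
  have h3 := mul_le_mul_of_nonneg_left hsum hO
  set X := ∑ M ∈ UU σ, χ (M 0)
  set Y := ∑ M ∈ UU σ, χ (M 0) * χ (M 1)
  set A := ∑ p ∈ OO σ, χ p.1
  set D := ∑ p ∈ OO σ, χ p.1 * χ p.2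
  have h4 : ((UU σ).card : ℝ) * A
      ≤ (m : ℝ) * (3 * (((UU σ).card : ℝ) * A) - 6 * (((UU σ).card : ℝ) * D)) := by
    calc ((UU σ).card : ℝ) * A = ((OO σ).card : ℝ) * X := d1.symm
      _ ≤ ((OO σ).card : ℝ) * ((m : ℝ) * (3 * X - 6 * Y)) := h3
      _ = (m : ℝ) * (3 * (((OO σ).card : ℝ) * X) - 6 * (((OO σ).card : ℝ) * Y)) := by ring
      _ = _ := by rw [d1, d2]
  have h5 : ((UU σ).card : ℝ) * (6 * (m : ℝ) * D)
      ≤ ((UU σ).card : ℝ) * ((3 * (m : ℝ) - 1) * A) := by nlinarith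
  exact le_of_mul_le_mul_left h5 hn

end Pool.Agent.H77R3.UP
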