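import Pool.Agent.H77R3.UP2

set_option autoImplicit false
set_option linter.unusedSectionVars false

/-!
Counting lemmas: kernels of Hermitian functionals, roots of the norm equation, second moment.
-/

namespace Pool.Agent.H77R3.UP

open Matrix Finset

variable {F : Type} [Field F] [Fintype F] [DecidableEq F] (σ : F →+* F)

lemma herm_add_right (x y z : Fin 3 → F) : herm σ x (y + z) = herm σ x y + herm σ x z := by
  simp only [herm, Pi.add_apply, map_add, mul_add, Finset.sum_add_distrib]

/-- number of solutions of the norm equation is at most `q+1`. -/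
lemma norm_roots (q : ℕ) (hσq : ∀ x, σ x = x ^ q) (c : F) :
    (Finset.univ.filter (fun x : F => x * σ x = c)).card ≤ q + 1 := by
  have h1 : (Finset.univ.filter (fun x : F => x * σ x = c))
      ⊆ (Polynomial.nthRoots (q + 1) c).toFinset := by
    intro x hx
    rw [Finset.mem_filter] at hx
    rw [Multiset.mem_toFinset, Polynomial.mem_nthRoots (Nat.succ_pos q)]
    rw [← hx.2, hσq]
    exact pow_succ' x q
  calc _ ≤ (Polynomial.nthRoots (q + 1) c).toFinset.card := Finset.card_le_card h1
    _ ≤ Multiset.card (Polynomial.nthRoots (q + 1) c) := Multiset.toFinset_card_le _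
    _ ≤ q + 1 := Polynomial.card_nthRoots _ _

/-- kernels of nonzero functionals -/
lemma ker1 (hσσ : ∀ x, σ (σ x) = x) {v : Fin 3 → F} (hv : v ≠ 0) :
    (Finset.univ.filter (fun w : Fin 3 → F => herm σ v w = 0)).card = Fintype.card F ^ 2 := by
  obtain ⟨i, hi⟩ : ∃ i, v i ≠ 0 := by
    by_contra h
    push Not at h
    exact hv (funext h)
  let w1 : Fin 3 → F := Pi.single i (σ (v i)⁻¹)
  have hw1 : herm σ v w1 = 1 := by
    unfold herm
    rw [Finset.sum_eq_single i]
    · simp only [w1, Pi.single_eq_same, hσσ]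
      exact mul_inv_cancel₀ hi
    · intro j _ hj
      simp [w1, hj]
    · intro h; exact absurd (Finset.mem_univ i) h
  have hfib : ∀ c : F, (Finset.univ.filter (fun w : Fin 3 → F => herm σ v w = c)).card
      = (Finset.univ.filter (fun w : Fin 3 → F => herm σ v w = 0)).card := by
    intro c
    refine Finset.card_bij' (fun w _ => w + (-(σ c)) • w1) (fun w _ => w + (σ c) • w1) ?_ ?_ ?_ ?_
    · intro w hw
      rw [Finset.mem_filter] at hw ⊢
      refine ⟨Finset.mem_univ _, ?_⟩
      rw [herm_add_right, herm_smul_right, hw.2, hw1, map_neg, hσσ]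
      ring
    · intro w hw
      rw [Finset.mem_filter] at hw ⊢
      refine ⟨Finset.mem_univ _, ?_⟩
      rw [herm_add_right, herm_smul_right, hw.2, hw1, hσσ]
      ring
    · intro w _
      simp
    · intro w _
      simp
  have htot : (Finset.univ : Finset (Fin 3 → F)).card
      = ∑ c : F, (Finset.univ.filter (fun w : Fin 3 → F => herm σ v w = c)).card :=
    Finset.card_eq_sum_card_fiberwise (fun w _ => Finset.mem_coe.mpr (Finset.mem_univ _))
  rw [Finset.sum_congr rfl (fun c _ => hfib c), Finset.sum_const, Finset.card_univ,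
    Finset.card_univ, smul_eq_mul, Fintype.card_fun, Fintype.card_fin] at htot
  have hpos : 0 < Fintype.card F := Fintype.card_pos
  have : Fintype.card F * Fintype.card F ^ 2
      = Fintype.card F * (Finset.univ.filter (fun w : Fin 3 → F => herm σ v w = 0)).card := by
    rw [← htot]; ring
  exact (Nat.eq_of_mul_eq_mul_left hpos this).symm

/-- the cross product -/
def cr (v w : Fin 3 → F) : Fin 3 → F :=
  ![v 1 * w 2 - v 2 * w 1, v 2 * w 0 - v 0 * w 2, v 0 * w 1 - v 1 * w 0]

lemma cr_par {v v' w : Fin 3 → F} (h1 : herm σ v w = 0)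
    (h2 : herm σ v' w = 0) (i k : Fin 3) :
    σ (w i) * cr v v' k = σ (w k) * cr v v' i := by
  simp only [herm, Fin.sum_univ_three] at h1 h2
  have c0 : cr v v' 0 = v 1 * v' 2 - v 2 * v' 1 := rfl
  have c1 : cr v v' 1 = v 2 * v' 0 - v 0 * v' 2 := rfl
  have c2 : cr v v' 2 = v 0 * v' 1 - v 1 * v' 0 := rfl
  have e01 : σ (w 0) * cr v v' 1 = σ (w 1) * cr v v' 0 := by
    rw [c0, c1]
    linear_combination v 2 * h2 - v' 2 * h1
  have e02 : σ (w 0) * cr v v' 2 = σ (w 2) * cr v v' 0 := by
    rw [c0, c2]
    linear_combination v' 1 * h1 - v 1 * h2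
  have e12 : σ (w 1) * cr v v' 2 = σ (w 2) * cr v v' 1 := by
    rw [c1, c2]
    linear_combination v 0 * h2 - v' 0 * h1
  fin_cases i <;> fin_cases k <;>
    first
    | rfl
    | exact e01
    | exact e02
    | exact e12
    | exact e01.symm
    | exact e02.symm
    | exact e12.symm

lemma ker2 (hσσ : ∀ x, σ (σ x) = x) {v v' : Fin 3 → F} (hc : cr v v' ≠ 0) :
    (Finset.univ.filter (fun w : Fin 3 → F => herm σ v w = 0 ∧ herm σ v' w = 0)).card
      ≤ Fintype.card F := by
  obtain ⟨k, hk⟩ : ∃ k, cr v v' k ≠ 0 := by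
    by_contra h
    push Not at h
    exact hc (funext h)
  rw [← Finset.card_univ]
  refine Finset.card_le_card_of_injOn (fun w => w k) (fun w _ => Finset.mem_coe.mpr
    (Finset.mem_univ _)) ?_
  intro w hw w' hw' hww
  rw [Finset.mem_coe, Finset.mem_filter] at hw hw'
  simp only at hww
  funext i
  have e1 := cr_par σ hw.2.1 hw.2.2 i k
  have e2 := cr_par σ hw'.2.1 hw'.2.2 i k
  rw [hww, ← e2] at e1
  have e3 := mul_right_cancel₀ hk e1
  rw [← hσσ (w i), e3, hσσ]

/-- number of unit vectors proportional to a unit vector -/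
lemma prop_count (q : ℕ) (hσq : ∀ x, σ x = x ^ q) {v : Fin 3 → F} (hv : herm σ v v = 1)
    (T : Finset (Fin 3 → F)) (hT : ∀ w ∈ T, herm σ w w = 1) :
    (T.filter (fun w => cr v w = 0)).card ≤ q + 1 := by
  have hv0 : v ≠ 0 := by
    rintro rfl
    simp [herm] at hv
  obtain ⟨k, hk⟩ : ∃ i, v i ≠ 0 := by
    by_contra h
    push Not at h
    exact hv0 (funext h)
  have hprop : ∀ w, cr v w = 0 → w = (w k / v k) • v := by
    intro w hw
    have h0 : v 1 * w 2 - v 2 * w 1 = 0 := congrFun hw 0
    have h1 : v 2 * w 0 - v 0 * w 2 = 0 := congrFun hw 1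
    have h2 : v 0 * w 1 - v 1 * w 0 = 0 := congrFun hw 2
    funext i
    rw [Pi.smul_apply, smul_eq_mul, div_mul_eq_mul_div, eq_div_iff hk]
    fin_cases k <;> fin_cases i <;> simp only [Fin.zero_eta, Fin.mk_one, Fin.reduceFinMk] <;>
      first
      | ring1
      | linear_combination h0
      | linear_combination h1
      | linear_combination h2
      | linear_combination -h0
      | linear_combination -h1
      | linear_combination -h2
  refine le_trans ?_ (norm_roots σ q hσq 1)
  refine Finset.card_le_card_of_injOn (fun w => w k / v k) ?_ ?_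
  · intro w hw
    rw [Finset.mem_coe, Finset.mem_filter] at hw
    rw [Finset.mem_coe, Finset.mem_filter]
    refine ⟨Finset.mem_univ _, ?_⟩
    have h1 := hT w hw.1
    have h2 := hprop w hw.2
    rw [h2, herm_smul_left, herm_smul_right, hv, mul_one] at h1
    exact h1
  · intro w hw w' hw' h
    rw [Finset.mem_coe, Finset.mem_filter] at hw hw'
    simp only at h
    rw [hprop w hw.2, hprop w' hw'.2, h]

/-- The second moment (expander mixing) bound. -/
theorem mixing (q : ℕ) (hσσ : ∀ x, σ (σ x) = x) (hσq : ∀ x, σ x = x ^ q)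
    (T : Finset (Fin 3 → F)) (hT : ∀ w ∈ T, herm σ w w = 1) :
    ((T.card : ℝ) * ((T.card : ℝ) / (Fintype.card F : ℝ))
        - (((T ×ˢ T).filter (fun p => herm σ p.1 p.2 = 0)).card : ℝ)) ^ 2
      ≤ (T.card : ℝ) ^ 2 * ((q : ℝ) + 1) * (Fintype.card F : ℝ) ^ 2 := by
  set Q : ℝ := (Fintype.card F : ℝ) with hQ
  have hQpos : 0 < Q := by
    have : 0 < Fintype.card F := Fintype.card_pos
    rw [hQ]
    exact_mod_cast this
  set t : ℝ := (T.card : ℝ) with ht
  have hT0 : ∀ w ∈ T, w ≠ 0 := by
    intro w hw h0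
    have := hT w hw
    rw [h0] at this
    simp [herm] at this
  -- indicator
  let I : (Fin 3 → F) → (Fin 3 → F) → ℝ := fun v w => if herm σ v w = 0 then 1 else 0
  let d : (Fin 3 → F) → ℝ := fun w => ∑ v ∈ T, I v w
  have hS1 : ∑ w, d w = t * Q ^ 2 := by
    simp only [d]
    rw [Finset.sum_comm]
    have : ∀ v ∈ T, ∑ w, I v w = Q ^ 2 := by
      intro v hv
      simp only [I]
      rw [Finset.sum_ite, Finset.sum_const, Finset.sum_const_zero, add_zero, nsmul_eq_mul,
        mul_one, ker1 σ hσσ (hT0 v hv)]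
      push_cast
      rfl
    rw [Finset.sum_congr rfl this, Finset.sum_const, nsmul_eq_mul]
  have hS2 : ∑ w, d w ^ 2 ≤ t * (((q : ℝ) + 1) * Q ^ 2 + t * Q) := by
    have e : ∀ w, d w ^ 2 = ∑ v ∈ T, ∑ v' ∈ T, I v w * I v' w := by
      intro w
      simp only [d]
      rw [sq, Finset.sum_mul_sum]
    simp only [e]
    rw [Finset.sum_comm]
    have hin : ∀ v ∈ T, ∑ w, ∑ v' ∈ T, I v w * I v' w ≤ ((q : ℝ) + 1) * Q ^ 2 + t * Q := by
      intro v hv
      rw [Finset.sum_comm]
      have hN : ∀ v' ∈ T, ∑ w, I v w * I v' w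
          = ((Finset.univ.filter (fun w : Fin 3 → F => herm σ v w = 0 ∧ herm σ v' w = 0)).card
            : ℝ) := by
        intro v' _
        rw [Finset.card_filter]
        push_cast
        refine Finset.sum_congr rfl ?_
        intro w _
        simp only [I]
        by_cases h1 : herm σ v w = 0 <;> by_cases h2 : herm σ v' w = 0 <;> simp [h1, h2]
      rw [Finset.sum_congr rfl hN]
      rw [← Finset.sum_filter_add_sum_filter_not T (fun v' => cr v v' = 0)]
      have hp1 : ∑ v' ∈ T.filter (fun v' => cr v v' = 0),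
          ((Finset.univ.filter (fun w : Fin 3 → F => herm σ v w = 0 ∧ herm σ v' w = 0)).card : ℝ)
          ≤ ((q : ℝ) + 1) * Q ^ 2 := by
        calc _ ≤ ∑ v' ∈ T.filter (fun v' => cr v v' = 0), Q ^ 2 := by
              refine Finset.sum_le_sum ?_
              intro v' _
              have h1 : (Finset.univ.filter
                  (fun w : Fin 3 → F => herm σ v w = 0 ∧ herm σ v' w = 0)).card
                  ≤ (Finset.univ.filter (fun w : Fin 3 → F => herm σ v w = 0)).card := by
                refine Finset.card_le_card ?_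
                intro w hw
                rw [Finset.mem_filter] at hw ⊢
                exact ⟨hw.1, hw.2.1⟩
              rw [ker1 σ hσσ (hT0 v hv)] at h1
              have : ((Finset.univ.filter
                  (fun w : Fin 3 → F => herm σ v w = 0 ∧ herm σ v' w = 0)).card : ℝ)
                  ≤ ((Fintype.card F ^ 2 : ℕ) : ℝ) := by exact_mod_cast h1
              rw [hQ]
              push_cast at this
              exact this
          _ = ((T.filter (fun v' => cr v v' = 0)).card : ℝ) * Q ^ 2 := by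
              rw [Finset.sum_const, nsmul_eq_mul]
          _ ≤ ((q : ℝ) + 1) * Q ^ 2 := by
              have h2 := prop_count σ q hσq (hT v hv) T hT
              have h3 : ((T.filter (fun v' => cr v v' = 0)).card : ℝ) ≤ (q : ℝ) + 1 := by
                exact_mod_cast h2
              exact mul_le_mul_of_nonneg_right h3 (by positivity)
      have hp2 : ∑ v' ∈ T.filter (fun v' => ¬ cr v v' = 0),
          ((Finset.univ.filter (fun w : Fin 3 → F => herm σ v w = 0 ∧ herm σ v' w = 0)).card : ℝ)
          ≤ t * Q := by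
        calc _ ≤ ∑ v' ∈ T.filter (fun v' => ¬ cr v v' = 0), Q := by
              refine Finset.sum_le_sum ?_
              intro v' hv'
              rw [Finset.mem_filter] at hv'
              have := ker2 σ hσσ hv'.2
              rw [hQ]
              exact_mod_cast this
          _ = ((T.filter (fun v' => ¬ cr v v' = 0)).card : ℝ) * Q := by
              rw [Finset.sum_const, nsmul_eq_mul]
          _ ≤ t * Q := by
              have h3 : ((T.filter (fun v' => ¬ cr v v' = 0)).card : ℝ) ≤ t := by
                rw [ht]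
                exact_mod_cast Finset.card_le_card (Finset.filter_subset _ _)
              exact mul_le_mul_of_nonneg_right h3 hQpos.le
      linarith
    calc _ ≤ ∑ v ∈ T, (((q : ℝ) + 1) * Q ^ 2 + t * Q) := Finset.sum_le_sum hin
      _ = _ := by rw [Finset.sum_const, nsmul_eq_mul]
  have hvar : ∑ w, (t / Q - d w) ^ 2 ≤ t * (((q : ℝ) + 1) * Q ^ 2) := by
    have e : ∀ w, (t / Q - d w) ^ 2 = (t / Q) ^ 2 - 2 * (t / Q) * d w + d w ^ 2 := by
      intro w; ring
    simp only [e]
    rw [Finset.sum_add_distrib, Finset.sum_sub_distrib, ← Finset.mul_sum, hS1, Finset.sum_const,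
      nsmul_eq_mul, Finset.card_univ, Fintype.card_fun, Fintype.card_fin]
    push_cast
    rw [← hQ]
    have e2 : Q ^ 3 * (t / Q) ^ 2 - 2 * (t / Q) * (t * Q ^ 2) = - (t ^ 2 * Q) := by
      field_simp
      ring
    rw [e2]
    nlinarith
  -- number of orthogonal pairs
  have hD : ((((T ×ˢ T).filter (fun p => herm σ p.1 p.2 = 0)).card : ℕ) : ℝ) = ∑ w ∈ T, d w := by
    rw [Finset.card_filter]
    push_cast
    rw [Finset.sum_product_right]
  rw [hD]
  have e3 : t * (t / Q) - ∑ w ∈ T, d w = ∑ w ∈ T, (t / Q - d w) := by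
    rw [Finset.sum_sub_distrib, Finset.sum_const, nsmul_eq_mul]
  rw [e3]
  calc (∑ w ∈ T, (t / Q - d w)) ^ 2 ≤ (T.card : ℝ) * ∑ w ∈ T, (t / Q - d w) ^ 2 :=
        sq_sum_le_card_mul_sum_sq
    _ ≤ t * ∑ w, (t / Q - d w) ^ 2 := by
        refine mul_le_mul_of_nonneg_left ?_ (Nat.cast_nonneg _)
        exact Finset.sum_le_sum_of_subset_of_nonneg (Finset.subset_univ _)
          (fun _ _ _ => sq_nonneg _)
    _ ≤ t * (t * (((q : ℝ) + 1) * Q ^ 2)) :=
        mul_le_mul_of_nonneg_left hvar (Nat.cast_nonneg _)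
    _ = t ^ 2 * ((q : ℝ) + 1) * Q ^ 2 := by ring

end Pool.Agent.H77R3.UP
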