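import Pool.Agent.H77R3.UP3

set_option autoImplicit false
set_option linter.unusedSectionVars false

/-!
Counting unit vectors over a set of projective points and the numerical contradiction.
-/

namespace Pool.Agent.H77R3.UP

open Matrix Finset

variable {F : Type} [Field F] [Fintype F] [DecidableEq F] (σ : F →+* F)

lemma vecMul_st (h : Matrix (Fin 3) (Fin 3) F) (w : Fin 3 → F) (i : Fin 3) :
    (w ᵥ* st σ h) i = herm σ w (h i) := rfl

lemma R_bound (q : ℕ) (hσσ : ∀ x, σ (σ x) = x) (hσq : ∀ x, σ x = x ^ q)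
    {v : Fin 3 → F} (hv : herm σ v v = 1) :
    (Finset.univ.filter (fun w : Fin 3 → F => herm σ w w = 1 ∧ herm σ v w = 0)).card
      ≤ (q + 1) * Fintype.card F := by
  rcases Finset.eq_empty_or_nonempty
    (Finset.univ.filter (fun w : Fin 3 → F => herm σ w w = 1 ∧ herm σ v w = 0)) with he | ⟨w0, hw0⟩
  · rw [he]; simp
  rw [Finset.mem_filter] at hw0
  obtain ⟨h, hU, h0, h1⟩ := exists_U σ hσσ hv hw0.2.1 hw0.2.2
  have hUs := hU.star σ hσσ
  have e2 : st σ h * h = 1 := hU.st_mul_self σ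
  -- target set
  have htarget : (Finset.univ.filter
      (fun p : F × F => p.1 * σ p.1 + p.2 * σ p.2 = 1)).card ≤ (q + 1) * Fintype.card F := by
    rw [← Finset.card_univ]
    refine Finset.card_le_mul_card_image_of_maps_to (f := Prod.snd)
      (fun p _ => Finset.mem_univ _) (q + 1) ?_
    intro b _
    refine le_trans ?_ (norm_roots σ q hσq (1 - b * σ b))
    refine Finset.card_le_card_of_injOn Prod.fst ?_ ?_
    · intro p hp
      rw [Finset.mem_coe, Finset.mem_filter, Finset.mem_filter] at hp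
      rw [Finset.mem_coe, Finset.mem_filter]
      refine ⟨Finset.mem_univ _, ?_⟩
      rw [← hp.2, ← hp.1.2]
      ring
    · intro p hp p' hp' hpp
      rw [Finset.mem_coe, Finset.mem_filter] at hp hp'
      exact Prod.ext hpp (hp.2.trans hp'.2.symm)
  refine le_trans ?_ htarget
  have hzero : ∀ w, herm σ v w = 0 → (w ᵥ* st σ h) 0 = 0 := by
    intro w hw
    rw [vecMul_st, h0, ← herm_symm σ hσσ, hw, map_zero]
  refine Finset.card_le_card_of_injOn
    (fun w => ((w ᵥ* st σ h) 1, (w ᵥ* st σ h) 2)) ?_ ?_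
  · intro w hw
    rw [Finset.mem_coe, Finset.mem_filter] at hw
    rw [Finset.mem_coe, Finset.mem_filter]
    refine ⟨Finset.mem_univ _, ?_⟩
    have h3 := herm_vecMul σ hUs w w
    rw [hw.2.1] at h3
    have h4 := hzero w hw.2.2
    simp only [herm, Fin.sum_univ_three] at h3
    rw [h4] at h3
    simpa using h3
  · intro w hw w' hw' hww
    rw [Finset.mem_coe, Finset.mem_filter] at hw hw'
    simp only [Prod.mk.injEq] at hww
    have h5 : w ᵥ* st σ h = w' ᵥ* st σ h := by
      funext i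
      fin_cases i
      · exact (hzero w hw.2.2).trans (hzero w' hw'.2.2).symm
      · exact hww.1
      · exact hww.2
    have h6 : (w ᵥ* st σ h) ᵥ* h = (w' ᵥ* st σ h) ᵥ* h := by rw [h5]
    rw [Matrix.vecMul_vecMul, Matrix.vecMul_vecMul, e2, Matrix.vecMul_one,
      Matrix.vecMul_one] at h6
    exact h6

section chi
variable (χ : (Fin 3 → F) → ℝ)

open Classical in
/-- unit vectors selected by `χ` -/
noncomputable def TT : Finset (Fin 3 → F) :=
  Finset.univ.filter (fun v => herm σ v v = 1 ∧ χ v = 1)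

lemma mem_TT (v : Fin 3 → F) : v ∈ TT σ χ ↔ herm σ v v = 1 ∧ χ v = 1 := by
  classical
  simp [TT]

lemma A_le (q : ℕ) (hσσ : ∀ x, σ (σ x) = x) (hσq : ∀ x, σ x = x ^ q)
    (hχ : ∀ v, χ v = 0 ∨ χ v = 1) :
    ∑ p ∈ OO σ, χ p.1 ≤ ((TT σ χ).card : ℝ) * (((q : ℝ) + 1) * (Fintype.card F : ℝ)) := by
  classical
  have e : ∑ p ∈ OO σ, χ p.1 = (((OO σ).filter (fun p => χ p.1 = 1)).card : ℝ) := by
    rw [Finset.card_filter]
    push_cast
    refine Finset.sum_congr rfl ?_
    intro p _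
    rcases hχ p.1 with h | h <;> simp [h]
  rw [e]
  have h1 : ((OO σ).filter (fun p => χ p.1 = 1)).card
      ≤ ((q + 1) * Fintype.card F) * (TT σ χ).card := by
    refine Finset.card_le_mul_card_image_of_maps_to (f := Prod.fst) ?_ _ ?_
    · intro p hp
      rw [Finset.mem_filter, mem_OO] at hp
      rw [mem_TT]
      exact ⟨hp.1.1, hp.2⟩
    · intro b hb
      rw [mem_TT] at hb
      refine le_trans ?_ (R_bound σ q hσσ hσq hb.1)
      refine Finset.card_le_card_of_injOn Prod.snd ?_ ?_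
      · intro p hp
        rw [Finset.mem_coe, Finset.mem_filter, Finset.mem_filter, mem_OO] at hp
        rw [Finset.mem_coe, Finset.mem_filter]
        refine ⟨Finset.mem_univ _, hp.1.1.2.1, ?_⟩
        rw [← hp.2]
        exact hp.1.1.2.2
      · intro p hp p' hp' hpp
        rw [Finset.mem_coe, Finset.mem_filter] at hp hp'
        exact Prod.ext (hp.2.trans hp'.2.symm) hpp
  calc (((OO σ).filter (fun p => χ p.1 = 1)).card : ℝ)
      ≤ (((q + 1) * Fintype.card F * (TT σ χ).card : ℕ) : ℝ) := by exact_mod_cast h1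
    _ = _ := by push_cast; ring

lemma D_eq (hχ : ∀ v, χ v = 0 ∨ χ v = 1) :
    ∑ p ∈ OO σ, χ p.1 * χ p.2
      = (((TT σ χ ×ˢ TT σ χ).filter (fun p => herm σ p.1 p.2 = 0)).card : ℝ) := by
  classical
  have e : (TT σ χ ×ˢ TT σ χ).filter (fun p => herm σ p.1 p.2 = 0)
      = (OO σ).filter (fun p => χ p.1 = 1 ∧ χ p.2 = 1) := by
    ext p
    rw [Finset.mem_filter, Finset.mem_filter, Finset.mem_product, mem_TT, mem_TT, mem_OO]
    tauto
  rw [e, Finset.card_filter]
  push_cast
  refine Finset.sum_congr rfl ?_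
  intro p _
  rcases hχ p.1 with h | h <;> rcases hχ p.2 with h' | h' <;> simp [h, h']

/-- numerical contradiction -/
theorem no_big (q : ℕ) (hσσ : ∀ x, σ (σ x) = x) (hσq : ∀ x, σ x = x ^ q)
    (hcard : Fintype.card F = q ^ 2) (hq : 30000 ≤ q)
    (hχ : ∀ v, χ v = 0 ∨ χ v = 1)
    (hcore : 114 * ∑ p ∈ OO σ, χ p.1 * χ p.2 ≤ 56 * ∑ p ∈ OO σ, χ p.1)
    (hbig : ((q : ℝ) + 1) * (0.498 * (q : ℝ) ^ 4) ≤ ((TT σ χ).card : ℝ)) : False := by
  have hA := A_le σ χ q hσσ hσq hχ
  have hD := D_eq σ χ hχ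
  have hM := mixing σ q hσσ hσq (TT σ χ) (fun w hw => ((mem_TT σ χ w).mp hw).1)
  rw [← hD] at hM
  set t : ℝ := ((TT σ χ).card : ℝ)
  set A := ∑ p ∈ OO σ, χ p.1
  set D := ∑ p ∈ OO σ, χ p.1 * χ p.2
  have hQ : (Fintype.card F : ℝ) = (q : ℝ) ^ 2 := by rw [hcard]; push_cast; ring
  rw [hQ] at hA hM
  have hqR : (30000 : ℝ) ≤ (q : ℝ) := by exact_mod_cast hq
  set x : ℝ := (q : ℝ)
  have hx2 : (0 : ℝ) < x ^ 2 := by positivity
  have ht : 0 < t := lt_of_lt_of_le (by positivity) hbig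
  have h1 : D ≤ 28 / 57 * (t * ((x + 1) * x ^ 2)) := by linarith
  have h2 : t / x ^ 2 ≥ 0.498 * (x + 1) * x ^ 2 := by
    rw [ge_iff_le, le_div_iff₀ hx2]
    calc 0.498 * (x + 1) * x ^ 2 * x ^ 2 = (x + 1) * (0.498 * x ^ 4) := by ring
      _ ≤ t := hbig
  have h3 : t * (1 / 150 * ((x + 1) * x ^ 2)) ≤ t * (t / x ^ 2) - D := by
    have h4 : t * (0.498 * (x + 1) * x ^ 2) ≤ t * (t / x ^ 2) :=
      mul_le_mul_of_nonneg_left h2 ht.le
    have h5 : 0 ≤ t * ((x + 1) * x ^ 2) := by positivity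
    nlinarith
  have h6 : 0 ≤ t * (1 / 150 * ((x + 1) * x ^ 2)) := by positivity
  have h7 : (t * (1 / 150 * ((x + 1) * x ^ 2))) ^ 2 ≤ (t * (t / x ^ 2) - D) ^ 2 :=
    pow_le_pow_left₀ h6 h3 2
  have h8 := h7.trans hM
  have h9 : t ^ 2 * (x + 1) * (x ^ 2) ^ 2 * ((x + 1) / 22500) ≤ t ^ 2 * (x + 1) * (x ^ 2) ^ 2 * 1 := by
    calc t ^ 2 * (x + 1) * (x ^ 2) ^ 2 * ((x + 1) / 22500)
        = (t * (1 / 150 * ((x + 1) * x ^ 2))) ^ 2 := by ring
      _ ≤ t ^ 2 * (x + 1) * (x ^ 2) ^ 2 := h8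
      _ = _ := by ring
  have hpos : 0 < t ^ 2 * (x + 1) * (x ^ 2) ^ 2 := by positivity
  have h10 := le_of_mul_le_mul_left h9 hpos
  have : x + 1 ≤ 22500 := by
    rw [div_le_iff₀ (by norm_num)] at h10
    linarith
  linarith

end chi

/-- number of isotropic vectors -/
lemma iso_count (q : ℕ) (hσq : ∀ x, σ x = x ^ q) :
    (Finset.univ.filter (fun w : Fin 3 → F => herm σ w w = 0)).card
      ≤ (q + 1) * Fintype.card F ^ 2 := by
  have e : Fintype.card F ^ 2 = (Finset.univ : Finset (F × F)).card := by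
    rw [Finset.card_univ, Fintype.card_prod, sq]
  rw [e]
  refine Finset.card_le_mul_card_image_of_maps_to (f := fun w : Fin 3 → F => (w 1, w 2))
    (fun p _ => Finset.mem_univ _) (q + 1) ?_
  rintro ⟨b, c⟩ _
  refine le_trans ?_ (norm_roots σ q hσq (-(b * σ b + c * σ c)))
  refine Finset.card_le_card_of_injOn (fun w => w 0) ?_ ?_
  · intro w hw
    rw [Finset.mem_coe, Finset.mem_filter, Finset.mem_filter] at hw
    rw [Finset.mem_coe, Finset.mem_filter]
    refine ⟨Finset.mem_univ _, ?_⟩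
    have h1 := hw.1.2
    have h2 := hw.2
    simp only [Prod.mk.injEq] at h2
    simp only [herm, Fin.sum_univ_three] at h1
    rw [h2.1, h2.2] at h1
    linear_combination h1
  · intro w hw w' hw' hww
    rw [Finset.mem_coe, Finset.mem_filter] at hw hw'
    have h2 := hw.2
    have h3 := hw'.2
    simp only [Prod.mk.injEq] at h2 h3
    funext i
    fin_cases i
    · exact hww
    · exact h2.1.trans h3.1.symm
    · exact h2.2.trans h3.2.symm

/-- the norm equation has at least `q+1` solutions for a nonzero fixed right side. -/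
lemma norm_many (q : ℕ) (hσq : ∀ x, σ x = x ^ q) (hcard : Fintype.card F = q ^ 2) (hq : 2 ≤ q)
    {c : F} (hc : c ≠ 0) (hσc : σ c = c) :
    q + 1 ≤ (Finset.univ.filter (fun x : F => x * σ x = c)).card := by
  by_contra hlt
  push Not at hlt
  -- the set of fixed nonzero elements
  set μ : Finset F := Finset.univ.filter (fun g : F => g ^ (q - 1) = 1) with hμ
  have hμcard : μ.card ≤ q - 1 := by
    have h1 : μ ⊆ (Polynomial.nthRoots (q - 1) (1 : F)).toFinset := by
      intro x hx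
      rw [hμ, Finset.mem_filter] at hx
      rw [Multiset.mem_toFinset, Polynomial.mem_nthRoots (by omega)]
      exact hx.2
    calc _ ≤ (Polynomial.nthRoots (q - 1) (1 : F)).toFinset.card := Finset.card_le_card h1
      _ ≤ Multiset.card (Polynomial.nthRoots (q - 1) (1 : F)) := Multiset.toFinset_card_le _
      _ ≤ q - 1 := Polynomial.card_nthRoots _ _
  have hcμ : c ∈ μ := by
    rw [hμ, Finset.mem_filter]
    refine ⟨Finset.mem_univ _, ?_⟩
    have h1 : c ^ (q - 1) * c = c := by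
      rw [← pow_succ, show q - 1 + 1 = q from by omega, ← hσq, hσc]
    exact mul_right_cancel₀ hc (by rw [h1, one_mul])
  have hmaps : ∀ x ∈ Finset.univ.filter (fun x : F => x ≠ 0), x * σ x ∈ μ := by
    intro x hx
    rw [Finset.mem_filter] at hx
    rw [hμ, Finset.mem_filter]
    refine ⟨Finset.mem_univ _, ?_⟩
    rw [hσq, ← pow_succ', ← pow_mul]
    have h1 : (q + 1) * (q - 1) = Fintype.card F - 1 := by
      rw [hcard]
      obtain ⟨k, rfl⟩ : ∃ k, q = k + 1 := ⟨q - 1, by omega⟩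
      simp only [Nat.add_sub_cancel]
      have : (k + 1) ^ 2 = (k + 1 + 1) * k + 1 := by ring
      omega
    rw [h1]
    exact FiniteField.pow_card_sub_one_eq_one x hx.2
  have htot := Finset.card_eq_sum_card_fiberwise (f := fun x : F => x * σ x) (t := μ)
    (s := Finset.univ.filter (fun x : F => x ≠ 0)) (fun x hx => Finset.mem_coe.mpr (hmaps x hx))
  have hne : (Finset.univ.filter (fun x : F => x ≠ 0)).card = q ^ 2 - 1 := by
    rw [Finset.filter_ne' Finset.univ (0 : F), Finset.card_erase_of_mem (Finset.mem_univ _),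
      Finset.card_univ, hcard]
  rw [hne] at htot
  have hf : ∀ g, ((Finset.univ.filter (fun x : F => x ≠ 0)).filter
      (fun x => x * σ x = g)).card ≤ (Finset.univ.filter (fun x : F => x * σ x = g)).card := by
    intro g
    refine Finset.card_le_card ?_
    intro x hx
    rw [Finset.mem_filter, Finset.mem_filter] at hx
    rw [Finset.mem_filter]
    exact ⟨Finset.mem_univ _, hx.2⟩
  rw [← Finset.add_sum_erase μ _ hcμ] at htot
  have h1 : ∑ g ∈ μ.erase c, ((Finset.univ.filter (fun x : F => x ≠ 0)).filter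
      (fun x => x * σ x = g)).card ≤ (q - 2) * (q + 1) := by
    calc _ ≤ ∑ g ∈ μ.erase c, (q + 1) := Finset.sum_le_sum
          (fun g _ => (hf g).trans (norm_roots σ q hσq g))
      _ = (μ.erase c).card * (q + 1) := by rw [Finset.sum_const, smul_eq_mul]
      _ ≤ (q - 2) * (q + 1) := by
          refine Nat.mul_le_mul_right _ ?_
          rw [Finset.card_erase_of_mem hcμ]
          omega
  have h2 := (hf c).trans_lt hlt
  obtain ⟨k, rfl⟩ : ∃ k, q = k + 2 := ⟨q - 2, by omega⟩
  simp only [Nat.add_sub_cancel] at h1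
  have e3 : (k + 2) ^ 2 = k * (k + 2 + 1) + (k + 2) + 2 := by ring
  omega

end Pool.Agent.H77R3.UP
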