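import Pool.Agent.H77R3.UP4

set_option autoImplicit false
set_option linter.unusedSectionVars false

/-!
A configuration of 19 orthonormal frames on 29 points of PG(2,25) in which every point but one
lies on an even number of frames, and the final assembly.
-/

namespace Pool.Agent.H77R3.UP

open Matrix Finset

/-- Coordinates `(a,b)` stand for `a + bθ`, `θ² = 2`. -/
def PP : Fin 29 → Fin 3 → ℤ × ℤ :=
  ![![(1, 0), (0, 0), (0, 0)],
    ![(1, 1), (0, 0), (0, -2)],
    ![(0, 1), (0, 0), (1, 2)],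
    ![(1, 1), (0, 0), (-2, 1)],
    ![(1, 1), (-1, 2), (2, 0)],
    ![(1, 1), (1, -2), (2, 0)],
    ![(1, 1), (0, -2), (0, 0)],
    ![(1, 1), (2, 2), (-2, 2)],
    ![(0, 1), (0, 2), (-2, 2)],
    ![(1, 1), (1, -1), (-1, -2)],
    ![(1, 1), (-2, 0), (-1, -2)],
    ![(1, 1), (-2, 0), (0, -1)],
    ![(1, 1), (0, 1), (2, 0)],
    ![(0, 1), (-2, 2), (-2, -1)],
    ![(0, 1), (0, -2), (2, -2)],
    ![(0, 1), (2, -2), (2, 1)],
    ![(0, 1), (2, -2), (-2, 1)],
    ![(1, 1), (0, -1), (2, 0)],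
    ![(1, 1), (0, -1), (-1, 1)],
    ![(1, 1), (1, 2), (1, -1)],
    ![(1, 1), (-1, -1), (0, -1)],
    ![(0, 1), (2, -1), (2, 2)],
    ![(1, 1), (1, 0), (-2, -2)],
    ![(0, 1), (2, -1), (2, -2)],
    ![(0, 1), (1, -1), (2, 0)],
    ![(0, 1), (-2, -1), (2, 2)],
    ![(1, 1), (2, -2), (1, 0)],
    ![(0, 0), (1, 1), (0, -2)],
    ![(0, 0), (0, 2), (-1, 1)]]

/-- the 19 frames -/
def FR : Fin 19 → Fin 3 → Fin 29 :=
  ![![2, 12, 17], ![1, 14, 20], ![3, 9, 25], ![5, 7, 23], ![6, 16, 17], ![3, 10, 21], ![19, 21, 26], ![4, 9, 24], ![7, 10, 16], ![1, 11, 23], ![2, 4, 5], ![11, 13, 26], ![19, 20, 24], ![8, 14, 28], ![13, 15, 27], ![18, 22, 25], ![0, 27, 28], ![8, 12, 22], ![6, 15, 18]]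

/-- real part of the Gram entry -/
def gr (x y : Fin 3 → ℤ × ℤ) : ℤ :=
  ((x 0).1 * (y 0).1 - 2 * ((x 0).2 * (y 0).2)) + ((x 1).1 * (y 1).1 - 2 * ((x 1).2 * (y 1).2))
    + ((x 2).1 * (y 2).1 - 2 * ((x 2).2 * (y 2).2))

/-- imaginary part of the Gram entry -/
def gi (x y : Fin 3 → ℤ × ℤ) : ℤ :=
  ((x 0).2 * (y 0).1 - (x 0).1 * (y 0).2) + ((x 1).2 * (y 1).1 - (x 1).1 * (y 1).2)
    + ((x 2).2 * (y 2).1 - (x 2).1 * (y 2).2)

theorem check : ∀ j : Fin 19, ∀ i i' : Fin 3,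
    (gr (PP (FR j i)) (PP (FR j i')) - (if i = i' then 1 else 0)) % 5 = 0
      ∧ gi (PP (FR j i)) (PP (FR j i')) % 5 = 0 := by
  decide +kernel

theorem parity (c : Fin 29 → ℕ)
    (h : ∀ j, (c (FR j 0) + c (FR j 1) + c (FR j 2)) % 2 = 0) : c 0 % 2 = 0 := by
  have h0 := h 0
  have h1 := h 1
  have h2 := h 2
  have h3 := h 3
  have h4 := h 4
  have h5 := h 5
  have h6 := h 6
  have h7 := h 7
  have h8 := h 8
  have h9 := h 9
  have h10 := h 10
  have h11 := h 11
  have h12 := h 12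
  have h13 := h 13
  have h14 := h 14
  have h15 := h 15
  have h16 := h 16
  have h17 := h 17
  have h18 := h 18
  clear h
  simp [FR] at h0 h1 h2 h3 h4 h5 h6 h7 h8 h9 h10 h11 h12 h13 h14 h15 h16 h17 h18
  omega

variable {F : Type} [Field F] [Fintype F] [DecidableEq F] (σ : F →+* F)

/-- evaluation of coordinates -/
def ev (θ : F) (v : Fin 3 → ℤ × ℤ) : Fin 3 → F := fun i => ((v i).1 : F) + ((v i).2 : F) * θ

lemma herm_ev (θ : F) (hθ : θ * θ = 2) (hσθ : σ θ = -θ) (x y : Fin 3 → ℤ × ℤ) :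
    herm σ (ev θ x) (ev θ y) = ((gr x y : ℤ) : F) + ((gi x y : ℤ) : F) * θ := by
  simp only [herm, ev, Fin.sum_univ_three, gr, gi, map_add, map_mul, map_intCast, hσθ]
  push_cast
  linear_combination (-((x 0).2 : F) * ((y 0).2 : F) - ((x 1).2 : F) * ((y 1).2 : F)
    - ((x 2).2 : F) * ((y 2).2 : F)) * hθ

lemma frames_unitary [CharP F 5] (θ : F) (hθ : θ * θ = 2) (hσθ : σ θ = -θ) (j : Fin 19) :
    IsU σ (Matrix.of (fun i => ev θ (PP (FR j i)))) := by
  rw [isU_iff]
  intro i i'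
  show herm σ (ev θ (PP (FR j i))) (ev θ (PP (FR j i'))) = _
  rw [herm_ev σ θ hθ hσθ]
  obtain ⟨h1, h2⟩ := check j i i'
  have e2 : ((gi (PP (FR j i)) (PP (FR j i')) : ℤ) : F) = 0 := by
    rw [CharP.intCast_eq_zero_iff F 5]
    exact Int.dvd_of_emod_eq_zero h2
  have e1 : (((gr (PP (FR j i)) (PP (FR j i')) - (if i = i' then 1 else 0) : ℤ)) : F) = 0 := by
    rw [CharP.intCast_eq_zero_iff F 5]
    exact Int.dvd_of_emod_eq_zero h1
  rw [e2, zero_mul, add_zero]
  push_cast at e1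
  exact sub_eq_zero.mp e1

/-- indicator of a set of projective points, on vectors -/
noncomputable def ind (S : Finset (Projectivization F (Fin 3 → F))) (v : Fin 3 → F) : ℝ :=
  open Classical in if (∃ h : v ≠ 0, Projectivization.mk F v h ∈ S) then 1 else 0

lemma ind_01 (S : Finset (Projectivization F (Fin 3 → F))) (v : Fin 3 → F) :
    ind S v = 0 ∨ ind S v = 1 := by
  classical
  unfold ind
  split_ifs
  · exact Or.inr rfl
  · exact Or.inl rfl

lemma ind_eq_one (S : Finset (Projectivization F (Fin 3 → F))) (v : Fin 3 → F) :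
    ind S v = 1 ↔ ∃ h : v ≠ 0, Projectivization.mk F v h ∈ S := by
  classical
  unfold ind
  split_ifs with h
  · exact ⟨fun _ => h, fun _ => rfl⟩
  · constructor
    · intro h'; norm_num at h'
    · intro h'; exact absurd h' h

lemma mk_smul (x : Projectivization F (Fin 3 → F)) (a : F) (h : a • x.rep ≠ 0) :
    Projectivization.mk F (a • x.rep) h = x := by
  have : Projectivization.mk F (a • x.rep) h = Projectivization.mk F x.rep x.rep_nonzero :=
    (Projectivization.mk_eq_mk_iff' F _ _ _ _).mpr ⟨a, rfl⟩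
  rw [this, x.mk_rep]

lemma smul_rep_inj (x y : Projectivization F (Fin 3 → F)) (a b : F) (ha : a ≠ 0) (hb : b ≠ 0)
    (h : a • x.rep = b • y.rep) : x = y ∧ a = b := by
  have h1 : a • x.rep ≠ 0 := smul_ne_zero ha x.rep_nonzero
  have h2 : b • y.rep ≠ 0 := smul_ne_zero hb y.rep_nonzero
  have hxy : x = y := by
    rw [← mk_smul x a h1, ← mk_smul y b h2]
    congr 1
  subst hxy
  exact ⟨rfl, smul_left_injective F x.rep_nonzero h⟩

/-- many unit vectors -/
lemma T_lower (q : ℕ) (hσσ : ∀ x, σ (σ x) = x) (hσq : ∀ x, σ x = x ^ q)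
    (hcard : Fintype.card F = q ^ 2)
    (hq : 30000 ≤ q) (S : Finset (Projectivization F (Fin 3 → F)))
    (hS : (1 / 2 - 1 / 1000) * (q : ℝ) ^ 4 ≤ (S.card : ℝ)) :
    ((q : ℝ) + 1) * (0.498 * (q : ℝ) ^ 4) ≤ ((TT σ (ind S)).card : ℝ) := by
  classical
  set S0 := S.filter (fun x => herm σ x.rep x.rep = 0) with hS0
  set S1 := S.filter (fun x => ¬ herm σ x.rep x.rep = 0) with hS1
  have hsplit : S0.card + S1.card = S.card := Finset.card_filter_add_card_filter_not _
  -- isotropic part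
  have ha : S0.card * (q ^ 2 - 1) ≤ (q + 1) * (q ^ 2) ^ 2 := by
    have hne : (Finset.univ.filter (fun x : F => x ≠ 0)).card = q ^ 2 - 1 := by
      rw [Finset.filter_ne' Finset.univ (0 : F), Finset.card_erase_of_mem (Finset.mem_univ _),
        Finset.card_univ, hcard]
    rw [← hne, ← Finset.card_product, ← hcard]
    refine le_trans ?_ (iso_count σ q hσq)
    refine Finset.card_le_card_of_injOn (fun p => p.2 • p.1.rep) ?_ ?_
    · intro p hp
      rw [Finset.mem_coe, Finset.mem_product, hS0, Finset.mem_filter, Finset.mem_filter] at hp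
      rw [Finset.mem_coe, Finset.mem_filter]
      refine ⟨Finset.mem_univ _, ?_⟩
      rw [herm_smul_left, herm_smul_right, hp.1.2]
      ring
    · intro p hp p' hp' hpp
      rw [Finset.mem_coe, Finset.mem_product, hS0, Finset.mem_filter, Finset.mem_filter] at hp hp'
      have := smul_rep_inj p.1 p'.1 p.2 p'.2 hp.2.2 hp'.2.2 hpp
      exact Prod.ext this.1 this.2
  -- anisotropic part
  have hb : S1.card * (q + 1) ≤ (TT σ (ind S)).card := by
    let Sol : Projectivization F (Fin 3 → F) → Finset F := fun x =>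
      Finset.univ.filter (fun a : F => a * σ a = (herm σ x.rep x.rep)⁻¹)
    have h1 : S1.card * (q + 1) ≤ (S1.sigma Sol).card := by
      rw [Finset.card_sigma]
      calc S1.card * (q + 1) = ∑ x ∈ S1, (q + 1) := by rw [Finset.sum_const, smul_eq_mul]
        _ ≤ _ := by
            refine Finset.sum_le_sum ?_
            intro x hx
            rw [hS1, Finset.mem_filter] at hx
            refine norm_many σ q hσq hcard (by omega) (inv_ne_zero hx.2) ?_
            rw [map_inv₀, herm_symm σ hσσ]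
    refine h1.trans ?_
    refine Finset.card_le_card_of_injOn (fun p => p.2 • p.1.rep) ?_ ?_
    · rintro ⟨x, a⟩ hp
      rw [Finset.mem_coe, Finset.mem_sigma, hS1, Finset.mem_filter, Finset.mem_filter] at hp
      obtain ⟨⟨hx, hx0⟩, _, ha⟩ := hp
      simp only at hx hx0 ha
      have ha0 : a ≠ 0 := by
        rintro rfl
        rw [zero_mul] at ha
        exact inv_ne_zero hx0 ha.symm
      rw [Finset.mem_coe, mem_TT]
      constructor
      · show herm σ (a • x.rep) (a • x.rep) = 1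
        rw [herm_smul_left, herm_smul_right, ← mul_assoc, ha, inv_mul_cancel₀ hx0]
      · rw [ind_eq_one]
        refine ⟨smul_ne_zero ha0 x.rep_nonzero, ?_⟩
        show Projectivization.mk F (a • x.rep) _ ∈ S
        rw [mk_smul]
        exact hx
    · rintro ⟨x, a⟩ hp ⟨y, b⟩ hp' hpp
      rw [Finset.mem_coe, Finset.mem_sigma, hS1, Finset.mem_filter, Finset.mem_filter] at hp hp'
      have ha0 : a ≠ 0 := by
        rintro rfl
        have := hp.2.2
        simp only [zero_mul] at this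
        exact inv_ne_zero hp.1.2 this.symm
      have hb0 : b ≠ 0 := by
        rintro rfl
        have := hp'.2.2
        simp only [zero_mul] at this
        exact inv_ne_zero hp'.1.2 this.symm
      obtain ⟨e1, e2⟩ := smul_rep_inj x y a b ha0 hb0 hpp
      subst e1
      subst e2
      rfl
  -- numbers
  have hqR : (30000 : ℝ) ≤ (q : ℝ) := by exact_mod_cast hq
  have haR : (S0.card : ℝ) * ((q : ℝ) ^ 2 - 1) ≤ ((q : ℝ) + 1) * ((q : ℝ) ^ 2) ^ 2 := by
    have h1 : ((S0.card * (q ^ 2 - 1) : ℕ) : ℝ) ≤ (((q + 1) * (q ^ 2) ^ 2 : ℕ) : ℝ) := by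
      exact_mod_cast ha
    have h2 : 1 ≤ q ^ 2 := Nat.one_le_pow _ _ (by omega)
    push_cast [Nat.cast_sub h2] at h1
    exact h1
  have hbR : (S1.card : ℝ) * ((q : ℝ) + 1) ≤ ((TT σ (ind S)).card : ℝ) := by exact_mod_cast hb
  have hsR : (S0.card : ℝ) + (S1.card : ℝ) = (S.card : ℝ) := by exact_mod_cast hsplit
  set x : ℝ := (q : ℝ)
  have hx1 : 0 < x + 1 := by linarith
  have hx2 : 0 < x - 1 := by linarith
  have h3 : (S0.card : ℝ) * (x - 1) ≤ x ^ 4 := by
    have : (x + 1) * ((S0.card : ℝ) * (x - 1)) ≤ (x + 1) * x ^ 4 := by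
      calc (x + 1) * ((S0.card : ℝ) * (x - 1)) = (S0.card : ℝ) * (x ^ 2 - 1) := by ring
        _ ≤ (x + 1) * (x ^ 2) ^ 2 := haR
        _ = _ := by ring
    exact le_of_mul_le_mul_left this hx1
  have h4 : (S0.card : ℝ) ≤ x ^ 4 / 1000 := by
    have h5 : (S0.card : ℝ) * 1000 ≤ (S0.card : ℝ) * (x - 1) :=
      mul_le_mul_of_nonneg_left (by linarith) (Nat.cast_nonneg _)
    linarith
  have h6 : 0.498 * x ^ 4 ≤ (S1.card : ℝ) := by linarith
  calc (x + 1) * (0.498 * x ^ 4) ≤ (x + 1) * (S1.card : ℝ) :=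
        mul_le_mul_of_nonneg_left h6 hx1.le
    _ = (S1.card : ℝ) * (x + 1) := by ring
    _ ≤ _ := hbR

/-- Main: over a field with `q²` elements, `q = 5^k`, `k` odd, `q` large. -/
theorem main (q : ℕ) [CharP F 5] (hσσ : ∀ x, σ (σ x) = x) (hσq : ∀ x, σ x = x ^ q)
    (hcard : Fintype.card F = q ^ 2) (hq : 30000 ≤ q)
    (θ : F) (hθ : θ * θ = 2) (hσθ : σ θ = -θ)
    (S : Finset (Projectivization F (Fin 3 → F)))
    (hS : (1 / 2 - 1 / 1000) * (q : ℝ) ^ 4 ≤ (S.card : ℝ))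
    (htri : ∀ x ∈ S, ∀ y ∈ S, ∀ z ∈ S, x ≠ y → y ≠ z → x ≠ z →
          ¬ ((∑ i : Fin 3, x.rep i * (y.rep i) ^ q) = 0 ∧
             (∑ i : Fin 3, y.rep i * (z.rep i) ^ q) = 0 ∧
             (∑ i : Fin 3, x.rep i * (z.rep i) ^ q) = 0)) : False := by
  classical
  have hrepr : ∀ x y : Projectivization F (Fin 3 → F),
      (∑ i : Fin 3, x.rep i * (y.rep i) ^ q) = herm σ x.rep y.rep := by
    intro x y
    simp only [herm, hσq]
  have htri' : ∀ M, IsU σ M →
      ¬ (ind S (M 0) = 1 ∧ ind S (M 1) = 1 ∧ ind S (M 2) = 1) := by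
    rintro M hM ⟨h0, h1, h2⟩
    rw [isU_iff] at hM
    rw [ind_eq_one] at h0 h1 h2
    obtain ⟨n0, m0⟩ := h0
    obtain ⟨n1, m1⟩ := h1
    obtain ⟨n2, m2⟩ := h2
    have hne : ∀ i j : Fin 3, i ≠ j → ∀ (a : M i ≠ 0) (b : M j ≠ 0),
        Projectivization.mk F (M i) a ≠ Projectivization.mk F (M j) b := by
      intro i j hij a b hab
      rw [Projectivization.mk_eq_mk_iff'] at hab
      obtain ⟨c, hc⟩ := hab
      have h3 := hM i j
      rw [if_neg hij, ← hc, herm_smul_left, hM j j, if_pos rfl, mul_one] at h3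
      rw [h3, zero_smul] at hc
      exact a hc.symm
    have horth : ∀ i j : Fin 3, i ≠ j → ∀ (a : M i ≠ 0) (b : M j ≠ 0),
        herm σ (Projectivization.mk F (M i) a).rep (Projectivization.mk F (M j) b).rep = 0 := by
      intro i j hij a b
      obtain ⟨u, hu⟩ := Projectivization.exists_smul_eq_mk_rep F (M i) a
      obtain ⟨w, hw⟩ := Projectivization.exists_smul_eq_mk_rep F (M j) b
      rw [← hu, ← hw]
      have e1 : (u • M i : Fin 3 → F) = (u : F) • M i := rfl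
      have e2 : (w • M j : Fin 3 → F) = (w : F) • M j := rfl
      rw [e1, e2, herm_smul_left, herm_smul_right, hM i j, if_neg hij]
      ring
    refine htri _ m0 _ m1 _ m2 (hne 0 1 (by decide) _ _) (hne 1 2 (by decide) _ _)
      (hne 0 2 (by decide) _ _) ⟨?_, ?_, ?_⟩
    · rw [hrepr]; exact horth 0 1 (by decide) _ _
    · rw [hrepr]; exact horth 1 2 (by decide) _ _
    · rw [hrepr]; exact horth 0 2 (by decide) _ _
  have hcore := core σ (ind S) hσσ (ind_01 S) htri' (fun a => ev θ (PP a)) FR 0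
    (frames_unitary σ θ hθ hσθ) 16 0 (by decide) parity
  have hcore' : 114 * ∑ p ∈ OO σ, ind S p.1 * ind S p.2 ≤ 56 * ∑ p ∈ OO σ, ind S p.1 := by
    have e1 : (6 : ℝ) * ((19 : ℕ) : ℝ) = 114 := by norm_num
    have e2 : (3 : ℝ) * ((19 : ℕ) : ℝ) - 1 = 56 := by norm_num
    rw [e1, e2] at hcore
    exact hcore
  exact no_big σ (ind S) q hσσ hσq hcard hq (ind_01 S) hcore'
    (T_lower σ q hσσ hσq hcard hq S hS)

end Pool.Agent.H77R3.UP
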